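import Mathlib

set_option autoImplicit false

namespace Pool.Agent.Results.MP_ce47b3_al.NonFreeRetract

open FreeNonUnitalNonAssocAlgebra

noncomputable section

variable (k : Type) [CommRing k]

/-- The list of leaves (variables, from left to right) of a nonassociative monomial. -/
def leaves : FreeMagma ℕ → List ℕ
  | FreeMagma.of x => [x]
  | FreeMagma.mul a b => leaves a ++ leaves b

/-- An element of the free nonassociative algebra on countably many variables is multilinear if, for
some `n`, every monomial occurring in it contains every one of `n` variables exactly once (and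
nothing else). -/
def Multilinear (f : FreeNonUnitalNonAssocAlgebra k ℕ) : Prop :=
  ∃ n : ℕ, ∀ m ∈ f.coeff.support, (leaves m).Perm (List.range n)

/-- `A` belongs to the variety cut out by the identities `S`. -/
def Satisfies (S : Set (FreeNonUnitalNonAssocAlgebra k ℕ)) (A : Type) [NonUnitalNonAssocRing A]
    [Module k A] [IsScalarTower k A A] [SMulCommClass k A A] : Prop :=
  ∀ f ∈ S, ∀ v : ℕ → A, lift k v f = 0

/-- `F` is the `V`-free algebra on the family `ι : X → F`, for the variety `V` cut out by `S`. -/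
def IsFree (S : Set (FreeNonUnitalNonAssocAlgebra k ℕ)) {X : Type} (F : Type)
    [NonUnitalNonAssocRing F] [Module k F] [IsScalarTower k F F] [SMulCommClass k F F]
    (ι : X → F) : Prop :=
  Satisfies k S F ∧ ∀ (A : Type) [NonUnitalNonAssocRing A] [Module k A] [IsScalarTower k A A]
    [SMulCommClass k A A], Satisfies k S A → ∀ g : X → A, ∃! φ : F →ₙₐ[k] A, ∀ x, φ (ι x) = g x

/-! ### The variety -/

/-- The three identities `(x₀x₁)(x₂x₃)`, `x₀((x₁x₂)x₃)`, `(x₀(x₁x₂))x₃`. -/
def S : Set (FreeNonUnitalNonAssocAlgebra k ℕ) :=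
  {(of k 0 * of k 1) * (of k 2 * of k 3), of k 0 * ((of k 1 * of k 2) * of k 3),
    (of k 0 * (of k 1 * of k 2)) * of k 3}

lemma of_eq (i : ℕ) : of k i = MonoidAlgebra.single (FreeMagma.of i) (1 : k) := rfl

lemma mul_eq_mul (a b : FreeMagma ℕ) : a * b = FreeMagma.mul a b := rfl

lemma multilinear_single (m : FreeMagma ℕ) (n : ℕ) (h : (leaves m).Perm (List.range n)) :
    Multilinear k (MonoidAlgebra.single m (1 : k)) := by
  refine ⟨n, fun m' hm' => ?_⟩
  have : m' = m := by
    by_contra hne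
    rw [Finsupp.mem_support_iff] at hm'
    apply hm'
    rw [MonoidAlgebra.coeff_single, Finsupp.single_apply, if_neg (Ne.symm hne)]
  rw [this]; exact h

lemma S_multilinear : ∀ f ∈ S k, Multilinear k f := by
  intro f hf
  rcases hf with rfl | rfl | rfl
  · have : (of k 0 * of k 1) * (of k 2 * of k 3) = MonoidAlgebra.single
      ((FreeMagma.of 0 * FreeMagma.of 1) * (FreeMagma.of 2 * FreeMagma.of 3)) (1 : k) := by
      simp only [of_eq, MonoidAlgebra.single_mul_single, mul_one]
    rw [this]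
    exact multilinear_single k _ 4 (by decide)
  · have : of k 0 * ((of k 1 * of k 2) * of k 3) = MonoidAlgebra.single
      (FreeMagma.of 0 * ((FreeMagma.of 1 * FreeMagma.of 2) * FreeMagma.of 3)) (1 : k) := by
      simp only [of_eq, MonoidAlgebra.single_mul_single, mul_one]
    rw [this]
    exact multilinear_single k _ 4 (by decide)
  · have : (of k 0 * (of k 1 * of k 2)) * of k 3 = MonoidAlgebra.single
      ((FreeMagma.of 0 * (FreeMagma.of 1 * FreeMagma.of 2)) * FreeMagma.of 3) (1 : k) := by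
      simp only [of_eq, MonoidAlgebra.single_mul_single, mul_one]
    rw [this]
    exact multilinear_single k _ 4 (by decide)

variable {k}

section sat

variable {A : Type} [NonUnitalNonAssocRing A] [Module k A] [IsScalarTower k A A]
  [SMulCommClass k A A]

lemma satisfies_iff : Satisfies k (S k) A ↔ (∀ a b c d : A, (a * b) * (c * d) = 0) ∧
    (∀ a b c d : A, a * ((b * c) * d) = 0) ∧ (∀ a b c d : A, (a * (b * c)) * d = 0) := by
  constructor
  · intro h
    refine ⟨fun a b c d => ?_, fun a b c d => ?_, fun a b c d => ?_⟩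
    · have := h _ (Or.inl rfl) (fun n => if n = 0 then a else if n = 1 then b else if n = 2 then c else d)
      simpa [map_mul, lift_of_apply] using this
    · have := h _ (Or.inr (Or.inl rfl)) (fun n => if n = 0 then a else if n = 1 then b else if n = 2 then c else d)
      simpa [map_mul, lift_of_apply] using this
    · have := h _ (Or.inr (Or.inr rfl)) (fun n => if n = 0 then a else if n = 1 then b else if n = 2 then c else d)
      simpa [map_mul, lift_of_apply] using this
  · rintro ⟨h1, h2, h3⟩ f hf v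
    rcases hf with rfl | rfl | rfl
    · simp only [map_mul, lift_of_apply]; exact h1 _ _ _ _
    · simp only [map_mul, lift_of_apply]; exact h2 _ _ _ _
    · simp only [map_mul, lift_of_apply]; exact h3 _ _ _ _

lemma sat_sub (h : Satisfies k (S k) A) (N : NonUnitalSubalgebra k A) : Satisfies k (S k) N := by
  rw [satisfies_iff] at h ⊢
  exact ⟨fun a b c d => Subtype.ext (h.1 _ _ _ _), fun a b c d => Subtype.ext (h.2.1 _ _ _ _),
    fun a b c d => Subtype.ext (h.2.2 _ _ _ _)⟩

end sat

/-! ### Existence of free algebras -/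

section free

variable (k) (T : Set (FreeNonUnitalNonAssocAlgebra k ℕ)) (X : Type)

/-- the T-ideal -/
def I : Submodule k (FreeNonUnitalNonAssocAlgebra k X) where
  carrier := {f | ∀ (A : Type) [NonUnitalNonAssocRing A] [Module k A] [IsScalarTower k A A]
    [SMulCommClass k A A], Satisfies k T A → ∀ g : X → A, lift k g f = 0}
  add_mem' ha hb A _ _ _ _ hA g := by rw [map_add, ha A hA g, hb A hA g, add_zero]
  zero_mem' A _ _ _ _ _ g := by rw [map_zero]
  smul_mem' c a ha A _ _ _ _ hA g := by rw [map_smul, ha A hA g, smul_zero]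

def FV : Type := FreeNonUnitalNonAssocAlgebra k X ⧸ I k T X

instance : AddCommGroup (FV k T X) :=
  inferInstanceAs (AddCommGroup (FreeNonUnitalNonAssocAlgebra k X ⧸ I k T X))
instance : Module k (FV k T X) :=
  inferInstanceAs (Module k (FreeNonUnitalNonAssocAlgebra k X ⧸ I k T X))

def mk : FreeNonUnitalNonAssocAlgebra k X →ₗ[k] FV k T X := (I k T X).mkQ

variable {k T X} in
lemma mk_surj : Function.Surjective (mk k T X) := (I k T X).mkQ_surjective

variable {k T X} in
lemma mk_eq_zero {f : FreeNonUnitalNonAssocAlgebra k X} : mk k T X f = 0 ↔ f ∈ I k T X :=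
  Submodule.Quotient.mk_eq_zero _

def mulL : FreeNonUnitalNonAssocAlgebra k X →ₗ[k] FreeNonUnitalNonAssocAlgebra k X →ₗ[k] FV k T X :=
  (LinearMap.mul k (FreeNonUnitalNonAssocAlgebra k X)).compr₂ (mk k T X)

lemma mulL_apply (a b : FreeNonUnitalNonAssocAlgebra k X) : mulL k T X a b = mk k T X (a * b) := rfl

def mulM : FreeNonUnitalNonAssocAlgebra k X →ₗ[k] FV k T X →ₗ[k] FV k T X :=
  LinearMap.flip ((I k T X).liftQ (mulL k T X).flip (by
    intro b hb
    rw [LinearMap.mem_ker]
    refine LinearMap.ext fun a => ?_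
    rw [LinearMap.flip_apply, mulL_apply, LinearMap.zero_apply, mk_eq_zero]
    intro A _ _ _ _ hA g
    rw [map_mul, hb A hA g, mul_zero]))

lemma mulM_apply (a b : FreeNonUnitalNonAssocAlgebra k X) :
    mulM k T X a (mk k T X b) = mk k T X (a * b) := rfl

def mulQ : FV k T X →ₗ[k] FV k T X →ₗ[k] FV k T X :=
  (I k T X).liftQ (mulM k T X) (by
    intro a ha
    rw [LinearMap.mem_ker]
    refine LinearMap.ext fun b => ?_
    obtain ⟨b, rfl⟩ := mk_surj b
    rw [mulM_apply, LinearMap.zero_apply, mk_eq_zero]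
    intro A _ _ _ _ hA g
    rw [map_mul, ha A hA g, zero_mul])

lemma mulQ_apply (a b : FreeNonUnitalNonAssocAlgebra k X) :
    mulQ k T X (mk k T X a) (mk k T X b) = mk k T X (a * b) := rfl

instance : NonUnitalNonAssocRing (FV k T X) where
  mul a b := mulQ k T X a b
  left_distrib a b c := map_add (mulQ k T X a) b c
  right_distrib a b c := by
    show mulQ k T X (a + b) c = _
    rw [map_add]; rfl
  zero_mul a := by
    show mulQ k T X 0 a = 0
    rw [map_zero]; rfl
  mul_zero a := by
    show mulQ k T X a 0 = 0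
    rw [map_zero]

lemma mk_mul (a b : FreeNonUnitalNonAssocAlgebra k X) :
    mk k T X (a * b) = mk k T X a * mk k T X b := rfl

instance : IsScalarTower k (FV k T X) (FV k T X) := ⟨fun c a b => by
  show mulQ k T X (c • a) b = c • mulQ k T X a b
  rw [map_smul]; rfl⟩

instance : SMulCommClass k (FV k T X) (FV k T X) := ⟨fun c a b => by
  show c • mulQ k T X a b = mulQ k T X a (c • b)
  rw [map_smul]⟩

def mkH : FreeNonUnitalNonAssocAlgebra k X →ₙₐ[k] FV k T X :=
  { toFun := mk k T X
    map_smul' := fun c a => map_smul (mk k T X) c a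
    map_mul' := mk_mul k T X
    map_add' := map_add (mk k T X)
    map_zero' := map_zero (mk k T X) }

lemma mkH_surj : Function.Surjective (mkH k T X) := mk_surj

def gen (x : X) : FV k T X := mkH k T X (of k x)

lemma FV_sat : Satisfies k T (FV k T X) := by
  intro f hf v
  choose v' hv' using fun n => mkH_surj k T X (v n)
  have h1 : lift k v = (mkH k T X).comp (lift k v') := by
    apply hom_ext
    intro n
    rw [lift_of_apply, NonUnitalAlgHom.comp_apply, lift_of_apply, hv']
  rw [h1, NonUnitalAlgHom.comp_apply]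
  show mk k T X _ = 0
  rw [mk_eq_zero]
  intro A _ _ _ _ hA g
  have h2 : (lift k g).comp (lift k v') = lift k (fun n => lift k g (v' n)) := by
    apply hom_ext
    intro n
    rw [lift_of_apply, NonUnitalAlgHom.comp_apply, lift_of_apply]
  have h3 := hA f hf (fun n => lift k g (v' n))
  rw [← h2] at h3
  exact h3

theorem FV_free : IsFree k T (FV k T X) (gen k T X) := by
  refine ⟨FV_sat k T X, ?_⟩
  intro A _ _ _ _ hA g
  let φ : FV k T X →ₗ[k] A := (I k T X).liftQ
    ((lift k g : FreeNonUnitalNonAssocAlgebra k X →ₙₐ[k] A) : FreeNonUnitalNonAssocAlgebra k X →ₗ[k] A)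
    (fun f hf => by rw [LinearMap.mem_ker]; exact hf A hA g)
  have hφ : ∀ f, φ (mkH k T X f) = lift k g f := fun f => rfl
  let ψ : FV k T X →ₙₐ[k] A :=
    { toFun := φ
      map_smul' := fun c a => map_smul φ c a
      map_zero' := map_zero φ
      map_add' := map_add φ
      map_mul' := by
        intro a b
        obtain ⟨a, rfl⟩ := mkH_surj k T X a
        obtain ⟨b, rfl⟩ := mkH_surj k T X b
        show φ (mkH k T X a * mkH k T X b) = φ (mkH k T X a) * φ (mkH k T X b)
        rw [← map_mul, hφ, hφ, hφ, map_mul] }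
  refine ⟨ψ, fun x => ?_, ?_⟩
  · show φ (mkH k T X (of k x)) = g x
    rw [hφ, lift_of_apply]
  · intro ψ' hψ'
    have h1 : ψ'.comp (mkH k T X) = ψ.comp (mkH k T X) := by
      apply hom_ext
      intro x
      rw [NonUnitalAlgHom.comp_apply, NonUnitalAlgHom.comp_apply]
      have e1 := hψ' x
      have e2 : ψ (mkH k T X (of k x)) = g x := by
        show φ (mkH k T X (of k x)) = g x
        rw [hφ, lift_of_apply]
      rw [e2]; exact e1
    ext f
    obtain ⟨f, rfl⟩ := mkH_surj k T X f
    exact DFunLike.congr_fun h1 f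

end free

/-! ### Two auxiliary algebras of the variety -/

section aux

open Polynomial

variable (k)

/-- `k` with zero multiplication. -/
def Tr : Type := k

instance : AddCommGroup (Tr k) := inferInstanceAs (AddCommGroup k)
instance : Module k (Tr k) := inferInstanceAs (Module k k)
instance : NonUnitalNonAssocRing (Tr k) where
  mul _ _ := 0
  left_distrib _ _ _ := (add_zero _).symm
  right_distrib _ _ _ := (add_zero _).symm
  zero_mul _ := rfl
  mul_zero _ := rfl

lemma Tr_mul (a b : Tr k) : a * b = 0 := rfl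

/-- the identity map `k → Tr k` -/
def tr : k →ₗ[k] Tr k := LinearMap.id
/-- the identity map `Tr k → k` -/
def utr : Tr k →ₗ[k] k := LinearMap.id
lemma utr_tr (a : k) : utr k (tr k a) = a := rfl

instance : IsScalarTower k (Tr k) (Tr k) := ⟨fun c a b => by
  show (c • a) * b = c • (a * b)
  rw [Tr_mul, Tr_mul, smul_zero]⟩
instance : SMulCommClass k (Tr k) (Tr k) := ⟨fun c a b => by
  show c • (a * b) = a * (c • b)
  rw [Tr_mul, Tr_mul, smul_zero]⟩

lemma Tr_sat : Satisfies k (S k) (Tr k) :=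
  satisfies_iff.2 ⟨fun _ _ _ _ => rfl, fun _ _ _ _ => rfl, fun _ _ _ _ => rfl⟩

/-- The algebra `k ⊕ k[X] ⊕ k[X]`. -/
def D : Type := k × k[X] × k[X]

instance : AddCommGroup (D k) := inferInstanceAs (AddCommGroup (k × k[X] × k[X]))
instance : Module k (D k) := inferInstanceAs (Module k (k × k[X] × k[X]))

variable {k}

def mkD (a : k) (p r : k[X]) : D k := (a, p, r)

@[simp] lemma mkD1 (a : k) (p r : k[X]) : (mkD a p r).1 = a := rfl
@[simp] lemma mkD2 (a : k) (p r : k[X]) : (mkD a p r).2.1 = p := rfl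
@[simp] lemma mkD3 (a : k) (p r : k[X]) : (mkD a p r).2.2 = r := rfl

lemma Dext {x y : D k} (h1 : x.1 = y.1) (h2 : x.2.1 = y.2.1) (h3 : x.2.2 = y.2.2) : x = y :=
  Prod.ext h1 (Prod.ext h2 h3)

@[simp] lemma Dadd1 (x y : D k) : (x + y).1 = x.1 + y.1 := rfl
@[simp] lemma Dadd2 (x y : D k) : (x + y).2.1 = x.2.1 + y.2.1 := rfl
@[simp] lemma Dadd3 (x y : D k) : (x + y).2.2 = x.2.2 + y.2.2 := rfl
@[simp] lemma Dneg1 (x : D k) : (-x).1 = -x.1 := rfl
@[simp] lemma Dneg2 (x : D k) : (-x).2.1 = -x.2.1 := rfl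
@[simp] lemma Dneg3 (x : D k) : (-x).2.2 = -x.2.2 := rfl
@[simp] lemma Dsub1 (x y : D k) : (x - y).1 = x.1 - y.1 := rfl
@[simp] lemma Dsub2 (x y : D k) : (x - y).2.1 = x.2.1 - y.2.1 := rfl
@[simp] lemma Dsub3 (x y : D k) : (x - y).2.2 = x.2.2 - y.2.2 := rfl
@[simp] lemma Dzero1 : (0 : D k).1 = 0 := rfl
@[simp] lemma Dzero2 : (0 : D k).2.1 = 0 := rfl
@[simp] lemma Dzero3 : (0 : D k).2.2 = 0 := rfl
@[simp] lemma Dsmul1 (c : k) (x : D k) : (c • x).1 = c * x.1 := rfl
@[simp] lemma Dsmul2 (c : k) (x : D k) : (c • x).2.1 = C c * x.2.1 := by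
  rw [← smul_eq_C_mul]; rfl
@[simp] lemma Dsmul3 (c : k) (x : D k) : (c • x).2.2 = C c * x.2.2 := by
  rw [← smul_eq_C_mul]; rfl

instance : Mul (D k) := ⟨fun x y => (0, C (x.1 * y.1) * (1 + X) + C x.1 * X * y.2.1,
  C (x.1 * y.1) + C y.1 * X * x.2.2)⟩

@[simp] lemma Dmul1 (x y : D k) : (x * y).1 = 0 := rfl
@[simp] lemma Dmul2 (x y : D k) :
    (x * y).2.1 = C (x.1 * y.1) * (1 + X) + C x.1 * X * y.2.1 := rfl
@[simp] lemma Dmul3 (x y : D k) :
    (x * y).2.2 = C (x.1 * y.1) + C y.1 * X * x.2.2 := rfl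

instance : NonUnitalNonAssocRing (D k) where
  left_distrib a b c := by apply Dext <;> simp <;> ring
  right_distrib a b c := by apply Dext <;> simp <;> ring
  zero_mul a := by apply Dext <;> simp
  mul_zero a := by apply Dext <;> simp

instance : IsScalarTower k (D k) (D k) := ⟨fun c a b => by
  show (c • a) * b = c • (a * b)
  apply Dext <;> simp <;> ring⟩
instance : SMulCommClass k (D k) (D k) := ⟨fun c a b => by
  show c • (a * b) = a * (c • b)
  apply Dext <;> simp <;> ring⟩

lemma D_sat : Satisfies k (S k) (D k) := by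
  rw [satisfies_iff]
  refine ⟨fun a b c d => ?_, fun a b c d => ?_, fun a b c d => ?_⟩ <;> apply Dext <;> simp

end aux

/-! ### The idempotent endomorphism -/

section main

open Polynomial

abbrev F (k : Type) [CommRing k] : Type := FV k (S k) (Fin 2)

def w : F k := gen k (S k) (Fin 2) 0
def u : F k := gen k (S k) (Fin 2) 1

lemma F_free : IsFree k (S k) (F k) (gen k (S k) (Fin 2)) := FV_free k (S k) (Fin 2)

lemma id1 (a b c d : F k) : (a * b) * (c * d) = 0 := (satisfies_iff.1 F_free.1).1 a b c d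
lemma id2 (a b c d : F k) : a * ((b * c) * d) = 0 := (satisfies_iff.1 F_free.1).2.1 a b c d
lemma id3 (a b c d : F k) : (a * (b * c)) * d = 0 := (satisfies_iff.1 F_free.1).2.2 a b c d

section univ

variable {A : Type} [NonUnitalNonAssocRing A] [Module k A] [IsScalarTower k A A]
  [SMulCommClass k A A]

lemma exists_hom (hA : Satisfies k (S k) A) (a b : A) : ∃ φ : F k →ₙₐ[k] A, φ w = a ∧ φ u = b := by
  obtain ⟨φ, hφ, -⟩ := F_free.2 A hA ![a, b]
  exact ⟨φ, hφ 0, hφ 1⟩

lemma hom_unique (hA : Satisfies k (S k) A) (φ ψ : F k →ₙₐ[k] A) (h1 : φ w = ψ w) (h2 : φ u = ψ u) :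
    φ = ψ := by
  obtain ⟨χ, -, hχ⟩ := F_free.2 A hA ![ψ w, ψ u]
  have e1 := hχ φ (by intro x; fin_cases x; exacts [h1, h2])
  have e2 := hχ ψ (by intro x; fin_cases x; exacts [rfl, rfl])
  rw [e1, e2]

end univ

def q : F k := - (w * (w * w)) + w * u + w * (w * u)
def g0 : F k := w * w - w * (w * w) + w * (w * u) + (w * u) * w

/-- If `W = w + q` then `W * f = w * f` for `f` a product, etc. -/
lemma q_mul_mul (a b : F k) : q * (a * b) = 0 := by
  unfold q
  rw [add_mul, add_mul, neg_mul, id1, id1, id1]; simp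

lemma mul_g (a b : F k) : (w + q) * (a * b) = w * (a * b) := by rw [add_mul, q_mul_mul, add_zero]

lemma W_g0 : (w + q) * g0 = w * (g0 : F k) := by
  unfold g0
  simp only [mul_add, mul_sub, mul_g]

lemma W_w_g0 : (w + q) * (w * g0) = w * (w * (g0 : F k)) := mul_g _ _

lemma WW : (w + q) * (w + q) = (g0 : F k) + w * g0 := by
  have h1 : (w + q) * (w + q) = w * w + w * q + q * w + q * (q : F k) := by
    rw [add_mul, mul_add, mul_add]; abel
  have h2 : q * (q : F k) = 0 := by
    nth_rewrite 2 [q]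
    rw [mul_add, mul_add, mul_neg, q_mul_mul, q_mul_mul, q_mul_mul]; simp
  have h3 : q * (w : F k) = (w * u) * w := by
    unfold q
    rw [add_mul, add_mul, neg_mul, id3, id3]; simp
  have h4 : w * (q : F k) = - (w * (w * (w * w))) + w * (w * u) + w * (w * (w * u)) := by
    unfold q
    rw [mul_add, mul_add, mul_neg]
  have h5 : w * (g0 : F k) = w * (w * w) - w * (w * (w * w)) + w * (w * (w * u)) := by
    unfold g0
    rw [mul_add, mul_add, mul_sub, id2, add_zero]
  rw [h1, h2, h3, h4, h5]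
  unfold g0
  abel

lemma exists_e : ∃ e : F k →ₙₐ[k] F k, e w = w + q ∧ e u = g0 ∧ ∀ x, e (e x) = e x := by
  obtain ⟨e, h1, h2⟩ := exists_hom F_free.1 (w + q : F k) g0
  have hww : e (w * w) = g0 + w * g0 := by rw [map_mul, h1, WW]
  have hwww : e (w * (w * w)) = w * g0 + w * (w * g0) := by
    rw [map_mul, hww, h1, mul_add, W_g0, W_w_g0]
  have hwu : e (w * u) = w * g0 := by rw [map_mul, h1, h2, W_g0]
  have hwwu : e (w * (w * u)) = w * (w * g0) := by rw [map_mul, hwu, h1, W_w_g0]
  have hwuw : e ((w * u) * w) = 0 := by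
    rw [map_mul, hwu, h1]
    unfold g0
    simp only [mul_add, mul_sub, add_mul, sub_mul, id3]
    simp
  have hq : e q = 0 := by
    unfold q
    rw [map_add, map_add, map_neg, hwww, hwu, hwwu]; abel
  have hg : e g0 = g0 := by
    unfold g0
    rw [map_add, map_add, map_sub, hww, hwww, hwwu, hwuw]
    show g0 + w * g0 - (w * g0 + w * (w * g0)) + w * (w * g0) + 0 = g0
    abel
  refine ⟨e, h1, h2, fun x => ?_⟩
  have h3 : e.comp e = e := by
    apply hom_unique F_free.1
    · rw [NonUnitalAlgHom.comp_apply, h1, map_add, h1, hq, add_zero]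
    · rw [NonUnitalAlgHom.comp_apply, h2, hg]
  exact DFunLike.congr_fun h3 x

/-- generated-by principle -/
lemma mem_of_gen {A : Type} [NonUnitalNonAssocRing A] [Module k A] [IsScalarTower k A A]
    [SMulCommClass k A A] (hA : Satisfies k (S k) A) (φ : F k →ₙₐ[k] A) (N : NonUnitalSubalgebra k A)
    (h1 : φ w ∈ N) (h2 : φ u ∈ N) (x : F k) : φ x ∈ N := by
  obtain ⟨ψ, p1, p2⟩ := exists_hom (sat_sub hA N) (⟨φ w, h1⟩ : N) ⟨φ u, h2⟩
  have e1 : (NonUnitalSubalgebraClass.subtype N).comp ψ = φ := by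
    apply hom_unique hA
    · rw [NonUnitalAlgHom.comp_apply, p1]; rfl
    · rw [NonUnitalAlgHom.comp_apply, p2]; rfl
  rw [← e1]
  exact (ψ x).2

/-- the subalgebra of `D` of elements with matching constant terms -/
def EE (k : Type) [CommRing k] : NonUnitalSubalgebra k (D k) where
  carrier := {x | x.2.1.coeff 0 = x.2.2.coeff 0}
  add_mem' {a b} ha hb := by
    show (a + b).2.1.coeff 0 = (a + b).2.2.coeff 0
    have ha' : a.2.1.coeff 0 = a.2.2.coeff 0 := ha
    have hb' : b.2.1.coeff 0 = b.2.2.coeff 0 := hb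
    rw [Dadd2, Dadd3, coeff_add, coeff_add, ha', hb']
  zero_mem' := rfl
  mul_mem' {a b} _ _ := by
    show (a * b).2.1.coeff 0 = (a * b).2.2.coeff 0
    simp [mul_assoc]
  smul_mem' c a ha := by
    show (c • a).2.1.coeff 0 = (c • a).2.2.coeff 0
    have ha' : a.2.1.coeff 0 = a.2.2.coeff 0 := ha
    simp [ha']

/-- the subalgebra of `D` generated by `b` is contained in this one -/
def CC (b : D k) : NonUnitalSubalgebra k (D k) where
  carrier := {x | ∃ (t : k) (h1 h2 : k[X]), x.1 = t * b.1 ∧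
    x.2.1 = C t * b.2.1 + (C (b.1 * b.1) * (1 + X) + C b.1 * X * b.2.1) * h1 ∧
    x.2.2 = C t * b.2.2 + (C (b.1 * b.1) + C b.1 * X * b.2.2) * h2}
  add_mem' := by
    rintro x y ⟨t, h1, h2, a1, a2, a3⟩ ⟨t', h1', h2', b1, b2, b3⟩
    refine ⟨t + t', h1 + h1', h2 + h2', ?_, ?_, ?_⟩
    · rw [Dadd1, a1, b1]; ring
    · rw [Dadd2, a2, b2, C_add]; ring
    · rw [Dadd3, a3, b3, C_add]; ring
  zero_mem' := ⟨0, 0, 0, by simp, by simp, by simp⟩
  mul_mem' := by
    rintro x y ⟨t, h1, h2, a1, a2, a3⟩ ⟨t', h1', h2', b1, b2, b3⟩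
    refine ⟨0, C (t * t') + C t * C b.1 * X * h1', C (t * t') + C t' * C b.1 * X * h2, ?_, ?_, ?_⟩
    · simp
    · rw [Dmul2, a1, b1, b2]; simp only [C_mul, C_0]; ring
    · rw [Dmul3, a1, b1, a3]; simp only [C_mul, C_0]; ring
  smul_mem' := by
    rintro c x ⟨t, h1, h2, a1, a2, a3⟩
    refine ⟨c * t, C c * h1, C c * h2, ?_, ?_, ?_⟩
    · rw [Dsmul1, a1]; ring
    · rw [Dsmul2, a2, Polynomial.C_mul (a := c) (b := t)]; ring
    · rw [Dsmul3, a3, Polynomial.C_mul (a := c) (b := t)]; ring

lemma self_mem_CC (b : D k) : b ∈ CC b := ⟨1, 0, 0, by simp, by simp, by simp⟩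

/-- no element of `D` with matching constant terms generates a subalgebra containing
`(1,0,0)` and `(0,1,1)` -/
lemma not_gen [IsDomain k] (b : D k) (hb : b ∈ EE k) (h1 : mkD 1 0 0 ∈ CC b)
    (h2 : mkD 0 1 1 ∈ CC b) : False := by
  have hb' : b.2.1.coeff 0 = b.2.2.coeff 0 := hb
  obtain ⟨t, -, -, a1, -, -⟩ := h1
  have a1' : (1 : k) = t * b.1 := a1
  have hb0 : b.1 ≠ 0 := by
    intro h; rw [h, mul_zero] at a1'; exact one_ne_zero a1'
  obtain ⟨t', p1, p2, c1, c2, c3⟩ := h2
  have c1' : (0 : k) = t' * b.1 := c1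
  have ht' : t' = 0 := by
    rcases mul_eq_zero.1 c1'.symm with h | h
    · exact h
    · exact absurd h hb0
  have c2' : (1 : k[X]) = C t' * b.2.1 + (C (b.1 * b.1) * (1 + X) + C b.1 * X * b.2.1) * p1 := c2
  have c3' : (1 : k[X]) = C t' * b.2.2 + (C (b.1 * b.1) + C b.1 * X * b.2.2) * p2 := c3
  rw [ht', C_0, zero_mul, zero_add] at c2' c3'
  have hC : C b.1 ≠ (0 : k[X]) := by rwa [Ne, C_eq_zero]
  -- a unit of the form `C a + X * g` has `g = 0`
  have key : ∀ (a : k) (g h : k[X]), (1 : k[X]) = (C a + X * g) * h → g = 0 := by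
    intro a g h hu
    have hunit : IsUnit (C a + X * g) := IsUnit.of_mul_eq_one _ hu.symm
    have hd := natDegree_eq_zero_of_isUnit hunit
    rw [natDegree_eq_zero] at hd
    obtain ⟨x, hx⟩ := hd
    ext n
    have := congrArg (fun p : k[X] => p.coeff (n + 1)) hx
    simp only [coeff_add, coeff_X_mul, coeff_C_succ, zero_add] at this
    rw [coeff_zero]; exact this.symm
  have g1 : C (b.1 * b.1) + C b.1 * b.2.1 = (0 : k[X]) := by
    apply key (b.1 * b.1) _ p1
    rw [c2']; simp only [C_mul]; ring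
  have g2 : C b.1 * b.2.2 = (0 : k[X]) := by
    apply key (b.1 * b.1) _ p2
    rw [c3']; simp only [C_mul]; ring
  have g3 : b.2.2 = 0 := (mul_eq_zero.1 g2).resolve_left hC
  have g4 : C b.1 + b.2.1 = (0 : k[X]) := by
    have : C b.1 * (C b.1 + b.2.1) = (0 : k[X]) := by rw [← g1, C_mul]; ring
    exact (mul_eq_zero.1 this).resolve_left hC
  have g5 := congrArg (fun p : k[X] => p.coeff 0) g4
  simp only [coeff_add, coeff_C_zero, coeff_zero] at g5
  rw [hb', g3, coeff_zero, add_zero] at g5
  exact hb0 g5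

theorem not_free_aux [IsDomain k] (e : F k →ₙₐ[k] F k) (h1 : e w = w + q) (h2 : e u = g0)
    (he : ∀ x, e (e x) = e x) (B : NonUnitalSubalgebra k (F k)) (e' : F k →ₙₐ[k] B)
    (he'v : ∀ x, (e' x : F k) = e x) (he'B : ∀ b : B, e' (b : F k) = b) (Y : Type) (j : Y → B) :
    ¬ IsFree k (S k) B j := by
  intro hfree
  have hBsat : Satisfies k (S k) B := sat_sub F_free.1 B
  -- the trivial algebra
  obtain ⟨θ, t1, t2⟩ := exists_hom (Tr_sat k) (tr k 1) 0
  have θmul : ∀ a b : F k, θ (a * b) = 0 := fun a b => by rw [map_mul, Tr_mul]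
  have θq : θ q = 0 := by unfold q; rw [map_add, map_add, map_neg, θmul, θmul, θmul]; simp
  have hχ : ∀ χ : B →ₙₐ[k] Tr k, ∃ c : k, ∀ b : B, χ b = c • θ (b : F k) := by
    intro χ
    obtain ⟨c, hc⟩ : ∃ c : k, χ (e' w) = tr k c := ⟨utr k (χ (e' w)), rfl⟩
    refine ⟨c, fun b => ?_⟩
    have hmul : ∀ a b : F k, (χ.comp e') (a * b) = 0 := fun a b => by rw [map_mul, Tr_mul]
    let cθ : F k →ₙₐ[k] Tr k :=
      { toFun := fun x => c • θ x
        map_smul' := fun c x => by rw [map_smul, smul_comm]; rfl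
        map_zero' := by rw [map_zero, smul_zero]
        map_add' := fun x y => by rw [map_add, smul_add]
        map_mul' := fun x y => by rw [θmul, smul_zero, Tr_mul] }
    have h3 : χ.comp e' = cθ := by
      apply hom_unique (Tr_sat k)
      · rw [NonUnitalAlgHom.comp_apply]
        show _ = c • θ w
        rw [t1, hc, ← map_smul, smul_eq_mul, mul_one]
      · have e1 : e' u = e' g0 := by
          apply Subtype.ext
          rw [he'v, he'v, ← h2, he]
        rw [NonUnitalAlgHom.comp_apply, e1, ← NonUnitalAlgHom.comp_apply]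
        show _ = c • θ u
        rw [t2, smul_zero]
        unfold g0
        rw [map_add, map_add, map_sub, hmul, hmul, hmul, hmul]; simp
    have h4 := DFunLike.congr_fun h3 (b : F k)
    rw [NonUnitalAlgHom.comp_apply, he'B] at h4
    exact h4
  -- `Y` has exactly one element
  have hθe : θ ((e' w : B) : F k) = tr k 1 := by
    rw [he'v, h1, map_add, t1, θq, add_zero]
  have hne : Nonempty Y := by
    by_contra hY
    rw [not_nonempty_iff] at hY
    obtain ⟨χ, -, hu⟩ := hfree.2 (Tr k) (Tr_sat k) (fun y => (hY.false y).elim)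
    have e1 := hu (θ.comp (NonUnitalSubalgebraClass.subtype B)) (fun y => (hY.false y).elim)
    have e2 := hu 0 (fun y => (hY.false y).elim)
    have e3 : (θ.comp (NonUnitalSubalgebraClass.subtype B)) (e' w) = (0 : B →ₙₐ[k] Tr k) (e' w) := by
      rw [e1, e2]
    have e4 : θ ((e' w : B) : F k) = 0 := e3
    rw [hθe] at e4
    exact one_ne_zero (α := k) (congrArg (utr k) e4)
  have hsub : ∀ y y' : Y, y = y' := by
    classical
    intro y y'
    by_contra hyy
    obtain ⟨χ, hχ1, -⟩ := hfree.2 (Tr k) (Tr_sat k) (fun z => tr k (if z = y then 1 else 0))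
    obtain ⟨χ', hχ1', -⟩ := hfree.2 (Tr k) (Tr_sat k) (fun z => tr k (if z = y' then 1 else 0))
    obtain ⟨c, hc⟩ := hχ χ
    obtain ⟨c', hc'⟩ := hχ χ'
    have a1 := congrArg (utr k) (hχ1 y)
    have a2 := congrArg (utr k) (hχ1 y')
    have a3 := congrArg (utr k) (hχ1' y')
    rw [hc, utr_tr, map_smul, smul_eq_mul] at a1 a2
    rw [hc', utr_tr, map_smul, smul_eq_mul] at a3
    rw [if_pos rfl] at a1 a3
    rw [if_neg (Ne.symm hyy)] at a2
    rcases mul_eq_zero.1 a2 with h | h
    · rw [h, zero_mul] at a1; exact zero_ne_one a1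
    · rw [h, mul_zero] at a3; exact zero_ne_one a3
  obtain ⟨y0⟩ := hne
  -- the map to `D`
  obtain ⟨π, p1, p2⟩ := exists_hom (D_sat (k := k)) (mkD 1 0 0) (mkD 0 1 1)
  have pw : π (e w) = mkD 1 0 0 := by
    rw [h1]
    unfold q
    simp only [map_add, map_neg, map_mul, p1, p2]
    apply Dext <;> simp <;> ring
  have pu : π (e u) = mkD 0 1 1 := by
    rw [h2]
    unfold g0
    simp only [map_add, map_sub, map_mul, p1, p2]
    apply Dext <;> simp <;> ring
  have hEE : ∀ x, π x ∈ EE k := by
    apply mem_of_gen D_sat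
    · rw [p1]; exact (rfl : (0 : k[X]).coeff 0 = (0 : k[X]).coeff 0)
    · rw [p2]; exact (rfl : (1 : k[X]).coeff 0 = (1 : k[X]).coeff 0)
  set πB : B →ₙₐ[k] D k := π.comp (NonUnitalSubalgebraClass.subtype B) with hπB
  set b : D k := πB (j y0) with hb
  let N : NonUnitalSubalgebra k B := NonUnitalSubalgebra.comap πB (CC b)
  have hjN : ∀ y, j y ∈ N := by
    intro y
    rw [hsub y y0]
    exact self_mem_CC b
  obtain ⟨ψ, hψ, -⟩ := hfree.2 N (sat_sub hBsat N) (fun y => ⟨j y, hjN y⟩)
  obtain ⟨ρ, -, hρ⟩ := hfree.2 B hBsat j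
  have e1 := hρ ((NonUnitalSubalgebraClass.subtype N).comp ψ) (fun y => by
    rw [NonUnitalAlgHom.comp_apply, hψ]; rfl)
  have e2 := hρ (NonUnitalAlgHom.id k B) (fun y => rfl)
  have hall : ∀ x : B, x ∈ N := by
    intro x
    have : (NonUnitalSubalgebraClass.subtype N).comp ψ = NonUnitalAlgHom.id k B := e1.trans e2.symm
    have h5 := DFunLike.congr_fun this x
    have h6 : ((ψ x : N) : B) = x := h5
    rw [← h6]
    exact (ψ x).2
  have m1 : mkD 1 0 0 ∈ CC b := by
    have := hall (e' w)
    have h7 : πB (e' w) ∈ CC b := this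
    have h8 : πB (e' w) = mkD 1 0 0 := by
      show π ((e' w : B) : F k) = _
      rw [he'v]; exact pw
    rw [h8] at h7; exact h7
  have m2 : mkD 0 1 1 ∈ CC b := by
    have := hall (e' u)
    have h7 : πB (e' u) ∈ CC b := this
    have h8 : πB (e' u) = mkD 0 1 1 := by
      show π ((e' u : B) : F k) = _
      rw [he'v]; exact pu
    rw [h8] at h7; exact h7
  exact not_gen b (hEE _) m1 m2

theorem not_free [IsDomain k] (e : F k →ₙₐ[k] F k) (h1 : e w = w + q) (h2 : e u = g0)
    (he : ∀ x, e (e x) = e x) (Y : Type) (j : Y → NonUnitalAlgHom.range e) :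
    ¬ IsFree k (S k) (NonUnitalAlgHom.range e) j := by
  refine not_free_aux e h1 h2 he (NonUnitalAlgHom.range e) (NonUnitalAlgHom.rangeRestrict e)
    (fun x => rfl) ?_ Y j
  rintro ⟨b, x, rfl⟩
  apply Subtype.ext
  show e (e x) = e x
  exact he x

end main

/-- **Retracts of relatively free algebras need not be relatively free.** For every principal ideal
domain `k` there is a set `S` of multilinear identities, a `V`-free algebra `F` on two generators
(`V` the variety cut out by `S`), and an idempotent endomorphism `e` of `F` whose image (a retract of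
`F`) is not `V`-free on any set. -/
theorem result : ∀ (k : Type) [CommRing k] [IsDomain k] [IsPrincipalIdealRing k],
    ∃ S : Set (FreeNonUnitalNonAssocAlgebra k ℕ), (∀ f ∈ S, Multilinear k f) ∧
    ∃ (F : Type) (_ : NonUnitalNonAssocRing F) (_ : Module k F) (_ : IsScalarTower k F F)
      (_ : SMulCommClass k F F) (ι : Fin 2 → F), IsFree k S F ι ∧
      ∃ e : F →ₙₐ[k] F, (∀ x, e (e x) = e x) ∧
        ∀ (Y : Type) (j : Y → NonUnitalAlgHom.range e), ¬ IsFree k S (NonUnitalAlgHom.range e) j := by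
  intro k _ _ _
  obtain ⟨e, h1, h2, he⟩ := exists_e (k := k)
  exact ⟨S k, S_multilinear k, F k, inferInstance, inferInstance, inferInstance, inferInstance,
    gen k (S k) (Fin 2), F_free, e, he, fun Y j => not_free e h1 h2 he Y j⟩

end

end Pool.Agent.Results.MP_ce47b3_al.NonFreeRetract
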